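import Pool.Agent.Helper26.HB.Goals

/-! Packet HB-A2 (project HB of helper26): the isoperimetric inequality for sequences which are
monotone up to few steps. -/

open Pool.Agent.Helper26.HB

namespace Pool.Agent.Helper15.HB

theorem ident (U V : ℕ → ℝ) (m : ℕ) :
    ∑ j ∈ Finset.range m, ((U j - U 0) * (V (j + 1) - V j) - (V j - V 0) * (U (j + 1) - U j))
      = (U m - U 0) * (V m - V 0) - ∑ j ∈ Finset.range m,
        (2 * ((V j - V 0) * (U (j + 1) - U j)) + (U (j + 1) - U j) * (V (j + 1) - V j)) := by
  induction m with
  | zero => simp
  | succ m ih => rw [Finset.sum_range_succ, Finset.sum_range_succ, ih]; ring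

theorem gA2 : G_A2 := by
  intro M U V K Bad hK hBad hstep hmono
  set b : ℝ := (Bad.card : ℝ) with hb
  have hb0 : 0 ≤ b := Nat.cast_nonneg _
  -- lower bound
  have hlow : ∀ j, j ≤ M → -(K * ((Bad.filter (fun i => i < j)).card : ℝ)) ≤ V j - V 0 := by
    intro j
    induction j with
    | zero => intro _; simp
    | succ j ih =>
      intro hj
      have h1 := ih (by omega)
      have hjM : j < M := by omega
      by_cases hjb : j ∈ Bad
      · have hc : (Bad.filter (fun i => i < j + 1)).card = (Bad.filter (fun i => i < j)).card + 1 := by
          have : Bad.filter (fun i => i < j + 1) = insert j (Bad.filter (fun i => i < j)) := by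
            ext i
            simp only [Finset.mem_filter, Finset.mem_insert]
            constructor
            · rintro ⟨h, h'⟩
              by_cases hij : i = j
              · exact Or.inl hij
              · exact Or.inr ⟨h, by omega⟩
            · rintro (h | ⟨h, h'⟩)
              · subst h; exact ⟨hjb, by omega⟩
              · exact ⟨h, by omega⟩
          rw [this, Finset.card_insert_of_notMem (by simp)]
        rw [hc]
        have h2 := (abs_le.1 (hstep j hjM).2).1
        push_cast
        nlinarith
      · have hc : Bad.filter (fun i => i < j + 1) = Bad.filter (fun i => i < j) := by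
          ext i
          simp only [Finset.mem_filter]
          constructor
          · rintro ⟨h, h'⟩
            refine ⟨h, ?_⟩
            rcases Nat.lt_or_ge i j with h2 | h2
            · exact h2
            · exfalso
              have : i = j := by omega
              subst this
              exact hjb h
          · rintro ⟨h, h'⟩
            exact ⟨h, by omega⟩
        rw [hc]
        have h2 := (hmono j hjM hjb).2
        linarith
  have hlow' : ∀ j, j ≤ M → -(K * b) ≤ V j - V 0 := by
    intro j hj
    have h1 := hlow j hj
    have h2 : ((Bad.filter (fun i => i < j)).card : ℝ) ≤ b := by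
      rw [hb]
      exact_mod_cast Finset.card_filter_le _ _
    nlinarith
  have habs : ∀ j, j ≤ M → |V j - V 0| ≤ K * j := by
    intro j
    induction j with
    | zero => intro _; simp
    | succ j ih =>
      intro hj
      have h1 := ih (by omega)
      have h2 := (hstep j (by omega)).2
      have h3 : |V (j + 1) - V 0| ≤ |V (j + 1) - V j| + |V j - V 0| := by
        have := abs_add_le (V (j + 1) - V j) (V j - V 0)
        simpa using this
      push_cast
      linarith
  rw [ident]
  -- the terms
  have hterm : ∀ j ∈ Finset.range M, -(2 * K ^ 2 * b) - (if j ∈ Bad then 2 * K ^ 2 * M + K ^ 2 else 0)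
      ≤ 2 * ((V j - V 0) * (U (j + 1) - U j)) + (U (j + 1) - U j) * (V (j + 1) - V j) := by
    intro j hj
    have hjM : j < M := Finset.mem_range.1 hj
    obtain ⟨hu, hv⟩ := hstep j hjM
    by_cases hjb : j ∈ Bad
    · rw [if_pos hjb]
      have h1 := habs j hjM.le
      have hjm : (j : ℝ) ≤ M := by exact_mod_cast hjM.le
      have h2 : |(V j - V 0) * (U (j + 1) - U j)| ≤ (K * M) * K := by
        rw [abs_mul]
        exact mul_le_mul (h1.trans (by nlinarith)) hu (abs_nonneg _) (by positivity)
      have h3 : |(U (j + 1) - U j) * (V (j + 1) - V j)| ≤ K * K := by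
        rw [abs_mul]
        exact mul_le_mul hu hv (abs_nonneg _) hK
      have h2' := (abs_le.1 h2).1
      have h3' := (abs_le.1 h3).1
      have h4 : 0 ≤ 2 * K ^ 2 * b := by positivity
      nlinarith
    · rw [if_neg hjb]
      obtain ⟨hmu, hmv⟩ := hmono j hjM hjb
      have h1 := hlow' j hjM.le
      have hdu0 : 0 ≤ U (j + 1) - U j := by linarith
      have hdv0 : 0 ≤ V (j + 1) - V j := by linarith
      have hduK : U (j + 1) - U j ≤ K := (abs_le.1 hu).2
      have h2 : -(K * b) * (U (j + 1) - U j) ≤ (V j - V 0) * (U (j + 1) - U j) :=
        mul_le_mul_of_nonneg_right h1 hdu0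
      have h3 : (K * b) * (U (j + 1) - U j) ≤ (K * b) * K :=
        mul_le_mul_of_nonneg_left hduK (by positivity)
      have h4 : 0 ≤ (U (j + 1) - U j) * (V (j + 1) - V j) := mul_nonneg hdu0 hdv0
      nlinarith
  have hsum := Finset.sum_le_sum hterm
  rw [Finset.sum_sub_distrib, Finset.sum_const, Finset.card_range, nsmul_eq_mul,
    Finset.sum_ite_mem, Finset.inter_eq_right.2 hBad, Finset.sum_const, nsmul_eq_mul] at hsum
  have hbM : b * K ^ 2 ≤ b * K ^ 2 * M := by
    by_cases hc : Bad.card = 0
    · have : b = 0 := by rw [hb, hc]; simp
      rw [this]; simp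
    · have hM : 1 ≤ M := by
        by_contra h
        have hM0 : M = 0 := by omega
        subst hM0
        apply hc
        rw [Finset.card_eq_zero]
        simpa using hBad
      have : (1 : ℝ) ≤ M := by exact_mod_cast hM
      have h0 : 0 ≤ b * K ^ 2 := by positivity
      nlinarith
  have h0 : 0 ≤ K ^ 2 * M * b := by positivity
  rw [← hb] at hsum
  nlinarith

end Pool.Agent.Helper15.HB
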