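import Pool.Agent.Helper15.HB.Rect
import Pool.Agent.Helper93.GS.GCLO

/-! # HB: the form `β = (σ P) h (σ P)ᴴ` is closed -/

open Complex Metric Set Filter Topology MeasureTheory
open scoped ContDiff ComplexConjugate ComplexOrder Manifold Matrix

namespace Pool.Agent.Helper15.HB

open Pool.Agent.Helper95.Lin Pool.Agent.Helper16.Abund Pool.Agent.Helper92.Orb
  Pool.Agent.Helper10.SP Pool.Agent.Helper95.RK Pool.Agent.Helper57.HS
  Pool.Agent.Helper15.HS Pool.Agent.Helper15.GS Pool.Agent.Helper57.RBC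
open Pool.Agent.Helper82.HB

universe u

/-- HCLO. `P` holomorphic, `h`-selfadjoint projector with flat image, `β = (σ P) h (σ P)ᴴ` invariant: `β` is closed. -/
def S_HCLO : Prop := ∀ {n m : ℕ} (T : Set (Cn n)) {G : Type u} [Group G]
  (R : G → Cn n → Cn n → Prop) (H : Cn n → Matrix (Fin n) (Fin n) ℂ), KEt T R H →
  ∀ (σ : Cn n → Matrix (Fin n) (Fin m) ℂ) (h : Cn n → Matrix (Fin m) (Fin m) ℂ), SD T R σ h →
  ∀ P : Cn n → Matrix (Fin m) (Fin m) ℂ, (∀ a b, DifferentiableOn ℂ (fun x => P x a b) T) →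
  (∀ x ∈ T, P x * h x = h x * (P x)ᴴ) → InvH R (gS (fun x => σ x * P x) h) →
  (∀ x ∈ T, ∀ k l, P x * RE h k l x = 0) → CHF (gS (fun x => σ x * P x) h) T

/-- The sum with the torsion, rectangular. -/
theorem core' {n p : ℕ} (K : Matrix (Fin n) (Fin n) ℂ) (C : Fin n → Matrix (Fin n) (Fin p) ℂ) :
    ∑ i, ∑ j, ∑ m, ∑ l, K j i * K l m * ∑ a, (C i m a - C m i a) * conj (C j l a - C l j a) =
    2 * ∑ j, ∑ i, ∑ l, ∑ m, (K j i * K l m - K l i * K j m) * (C i * (C j)ᴴ) m l := by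
  rw [← Pool.Agent.Helper93.GS.relab K fun i j m l => (C i * (C j)ᴴ) m l]
  refine Finset.sum_congr rfl fun i _ => Finset.sum_congr rfl fun j _ =>
    Finset.sum_congr rfl fun m _ => Finset.sum_congr rfl fun l _ => ?_
  congr 1
  simp only [Matrix.mul_apply, Matrix.conjTranspose_apply, Complex.star_def,
    ← Finset.sum_sub_distrib, ← Finset.sum_add_distrib]
  refine Finset.sum_congr rfl fun a _ => ?_
  rw [map_sub]
  ring

theorem quad {n p : ℕ} (S : Matrix (Fin n) (Fin n) ℂ) (t : Fin p → Matrix (Fin n) (Fin n) ℂ) :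
    ∑ i, ∑ j, ∑ m, ∑ l, (Sᴴ * S) j i * (Sᴴ * S) l m * ∑ a, t a i m * conj (t a j l) =
      ((∑ a, ∑ c, ∑ d, ‖(S * t a * Sᵀ) c d‖ ^ 2 : ℝ) : ℂ) := by
  have e1 : ∀ a c d, ((‖(S * t a * Sᵀ) c d‖ ^ 2 : ℝ) : ℂ) =
      (∑ i, ∑ m, S c i * S d m * t a i m) * conj (∑ j, ∑ l, S c j * S d l * t a j l) := by
    intro a c d
    have e2 : (S * t a * Sᵀ) c d = ∑ i, ∑ m, S c i * S d m * t a i m := by
      simp only [Matrix.mul_apply, Matrix.transpose_apply, Finset.sum_mul]
      rw [Finset.sum_comm]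
      refine Finset.sum_congr rfl fun i _ => Finset.sum_congr rfl fun m _ => ?_
      ring
    rw [e2, Complex.mul_conj, Complex.normSq_eq_norm_sq]
  have e3 : ((∑ a, ∑ c, ∑ d, ‖(S * t a * Sᵀ) c d‖ ^ 2 : ℝ) : ℂ) =
      ∑ a, ∑ c, ∑ d, (∑ i, ∑ m, S c i * S d m * t a i m) *
        conj (∑ j, ∑ l, S c j * S d l * t a j l) := by
    rw [Complex.ofReal_sum]
    refine Finset.sum_congr rfl fun a _ => ?_
    rw [Complex.ofReal_sum]
    refine Finset.sum_congr rfl fun c _ => ?_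
    rw [Complex.ofReal_sum]
    exact Finset.sum_congr rfl fun d _ => e1 a c d
  rw [e3]
  have e4 : ∀ a, ∑ c, ∑ d, (∑ i, ∑ m, S c i * S d m * t a i m) *
        conj (∑ j, ∑ l, S c j * S d l * t a j l) =
      ∑ i, ∑ j, ∑ m, ∑ l, (Sᴴ * S) j i * (Sᴴ * S) l m * (t a i m * conj (t a j l)) := by
    intro a
    have e5 : ∀ c d, (∑ i, ∑ m, S c i * S d m * t a i m) *
        conj (∑ j, ∑ l, S c j * S d l * t a j l) =
        ∑ i, ∑ j, ∑ m, ∑ l, (conj (S c j) * S c i) * (conj (S d l) * S d m) *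
          (t a i m * conj (t a j l)) := by
      intro c d
      rw [Finset.sum_mul]
      refine Finset.sum_congr rfl fun i _ => ?_
      rw [Finset.sum_mul, map_sum]
      simp only [Finset.mul_sum]
      rw [Finset.sum_comm]
      refine Finset.sum_congr rfl fun j _ => Finset.sum_congr rfl fun m _ => ?_
      rw [map_sum, Finset.mul_sum]
      refine Finset.sum_congr rfl fun l _ => ?_
      rw [map_mul, map_mul]
      ring
    simp only [e5]
    have e6 : ∀ j i, (Sᴴ * S) j i = ∑ c, conj (S c j) * S c i := by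
      intro j i
      simp only [Matrix.mul_apply, Matrix.conjTranspose_apply, Complex.star_def]
    simp only [e6]
    calc ∑ c, ∑ d, ∑ i, ∑ j, ∑ m, ∑ l, (conj (S c j) * S c i) * (conj (S d l) * S d m) *
          (t a i m * conj (t a j l))
        = ∑ i, ∑ j, ∑ m, ∑ l, ∑ c, ∑ d, (conj (S c j) * S c i) * (conj (S d l) * S d m) *
          (t a i m * conj (t a j l)) := by
          have r : ∀ f : Fin n → Fin n → Fin n → ℂ, ∑ c, ∑ d, ∑ i, f c d i =
              ∑ i, ∑ c, ∑ d, f c d i := by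
            intro f
            rw [Finset.sum_congr rfl (fun c _ => Finset.sum_comm), Finset.sum_comm]
          rw [r]
          refine Finset.sum_congr rfl fun i _ => ?_
          rw [r]
          refine Finset.sum_congr rfl fun j _ => ?_
          rw [r]
          refine Finset.sum_congr rfl fun m _ => ?_
          rw [r]
      _ = _ := by
          refine Finset.sum_congr rfl fun i _ => Finset.sum_congr rfl fun j _ =>
            Finset.sum_congr rfl fun m _ => Finset.sum_congr rfl fun l _ => ?_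
          rw [Finset.sum_mul_sum, Finset.sum_mul]
          refine Finset.sum_congr rfl fun c _ => ?_
          rw [Finset.sum_mul]
  simp only [e4]
  have e7 : ∀ F : Fin n → Fin n → Fin n → Fin n → Fin p → ℂ,
      ∑ i, ∑ j, ∑ m, ∑ l, ∑ a, F i j m l a = ∑ a, ∑ i, ∑ j, ∑ m, ∑ l, F i j m l a := by
    intro F
    calc ∑ i, ∑ j, ∑ m, ∑ l, ∑ a, F i j m l a = ∑ i, ∑ j, ∑ m, ∑ a, ∑ l, F i j m l a :=
          Finset.sum_congr rfl fun i _ => Finset.sum_congr rfl fun j _ =>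
            Finset.sum_congr rfl fun m _ => Finset.sum_comm
      _ = ∑ i, ∑ j, ∑ a, ∑ m, ∑ l, F i j m l a :=
          Finset.sum_congr rfl fun i _ => Finset.sum_congr rfl fun j _ => Finset.sum_comm
      _ = ∑ i, ∑ a, ∑ j, ∑ m, ∑ l, F i j m l a :=
          Finset.sum_congr rfl fun i _ => Finset.sum_comm
      _ = _ := Finset.sum_comm
  rw [← e7]
  refine Finset.sum_congr rfl fun i _ => Finset.sum_congr rfl fun j _ =>
    Finset.sum_congr rfl fun m _ => Finset.sum_congr rfl fun l _ => ?_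
  rw [Finset.mul_sum]

/-- The general form: `φ` holomorphic with `φ RE = 0`. -/
theorem closed_gen (hWIRT : S_WIRT) (hPUE : S_PUE.{u}) (hD : S_DETI.{u})
    (hST : Pool.Agent.Helper15.RK.S_ST2A.{u}) (hPK : Pool.Agent.Helper15.RK.S_POSK.{u})
    {n m : ℕ} (T : Set (Cn n)) {G : Type u} [Group G]
    (R : G → Cn n → Cn n → Prop) (H : Cn n → Matrix (Fin n) (Fin n) ℂ) (hK : KEt T R H)
    (φ : Cn n → Matrix (Fin n) (Fin m) ℂ) (h : Cn n → Matrix (Fin m) (Fin m) ℂ)
    (hp : ∀ x ∈ T, (h x).PosDef) (hs : Sm h T)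
    (hφh : ∀ a b, DifferentiableOn ℂ (fun x => φ x a b) T) (hinv : InvH R (gS φ h))
    (hflat : ∀ x ∈ T, ∀ k l, φ x * RE h k l x = 0) : CHF (gS φ h) T := by
  have hTo : IsOpen T := hK.et.isOpen
  have hd : ∀ x ∈ T, (h x).det ≠ 0 := fun y hy => Pool.Agent.Helper80.HS.posDef_det_ne (hp y hy)
  have hφs : Sm φ T := sm_of_holo hTo hφh
  have hφb : ∀ y ∈ T, ∀ k, cdbR k φ y = 0 := fun y hy k => cdbR_holo hWIRT hTo hφh hy k
  have hG : ∀ k, Sm (GamE h k) T := fun k => sm_GamE hWIRT hTo hs hd k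
  obtain ⟨D, hDef⟩ : ∃ D : Fin n → Cn n → Matrix (Fin n) (Fin m) ℂ, ∀ k x,
    D k x = cdR k φ x + φ x * GamE h k x := ⟨fun k x => cdR k φ x + φ x * GamE h k x,
      fun _ _ => rfl⟩
  have hDf : ∀ k, D k = fun x => cdR k φ x + φ x * GamE h k x := fun k => funext (hDef k)
  have hDs : ∀ k, Sm (D k) T := by
    intro k
    rw [hDf k]
    exact (Sm.cdR hWIRT hTo hφs k).add (hφs.mul (hG k))
  have hβs : Sm (gS φ h) T := (hφs.mul hs).mul hφs.conjT
  have hβh : ∀ y ∈ T, (gS φ h y).IsHermitian := by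
    intro y hy
    rw [Matrix.IsHermitian, gS, Matrix.conjTranspose_mul, Matrix.conjTranspose_mul,
      Matrix.conjTranspose_conjTranspose, (hp y hy).1.eq, Matrix.mul_assoc]
  have hB : ∀ y ∈ T, ∀ l, cdR l (gS φ h) y = D l y * h y * (φ y)ᴴ := by
    intro y hy l
    have e1 : cdR l (gS φ h) y = cdR l (fun z => (φ z * h z) * (φ z)ᴴ) y := rfl
    rw [e1, cdR_mul hWIRT hTo hy (hφs.mul hs) hφs.conjT l, cdR_mul hWIRT hTo hy hφs hs l,
      (cdR_conjT hWIRT hTo hy hφs l).1, hφb y hy l, Matrix.conjTranspose_zero, Matrix.mul_zero,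
      add_zero, cdM_eq_GamE hd hy l, ← Matrix.mul_assoc, ← Matrix.add_mul, hDef]
  have hBb : ∀ y ∈ T, ∀ l, cdbR l (gS φ h) y = φ y * h y * (D l y)ᴴ := by
    intro y hy l
    have e1 : cdbR l (gS φ h) y = cdbR l (fun z => (φ z * h z) * (φ z)ᴴ) y := rfl
    rw [e1, cdbR_mul hWIRT hTo hy (hφs.mul hs) hφs.conjT l, cdbR_mul hWIRT hTo hy hφs hs l,
      (cdR_conjT hWIRT hTo hy hφs l).2, hφb y hy l, Matrix.zero_mul, zero_add,
      cdbM_eq_GamE hWIRT hTo hs hp hy l, hDef, Matrix.conjTranspose_add,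
      Matrix.conjTranspose_mul, Matrix.mul_add]
    simp only [Matrix.mul_assoc]
    rw [add_comm]
  have hDb : ∀ y ∈ T, ∀ i j, cdbR i (D j) y = 0 := by
    intro y hy i j
    rw [hDf j, cdbR_add hWIRT hTo hy (Sm.cdR hWIRT hTo hφs j) (hφs.mul (hG j)) i,
      cdbR_mul hWIRT hTo hy hφs (hG j) i, hφb y hy i, Matrix.zero_mul, zero_add,
      ← (cdR_cdbR hWIRT hTo hy hφs j i).1,
      (cdR_congr hTo hy (X := cdbR i φ) (Y := fun _ => 0) (fun z hz => hφb z hz i) j).1,
      (cdR_zero j y).1, zero_add]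
    exact hflat y hy j i
  have hX : ∀ y ∈ T, ∀ i j a b, cd i (cdb j fun z => (gS φ h z) a b) y =
      (D i y * h y * (D j y)ᴴ) a b := by
    intro y hy i j a b
    have a1 : cd i (cdb j fun z => (gS φ h z) a b) y = (cdR i (cdbR j (gS φ h)) y) a b := rfl
    rw [a1, (cdR_congr hTo hy (X := cdbR j (gS φ h)) (Y := fun z => (φ z * h z) * (D j z)ᴴ)
      (fun z hz => hBb z hz j) i).1, cdR_mul hWIRT hTo hy (hφs.mul hs) (hDs j).conjT i,
      cdR_mul hWIRT hTo hy hφs hs i, (cdR_conjT hWIRT hTo hy (hDs j) i).1, hDb y hy i j,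
      Matrix.conjTranspose_zero, Matrix.mul_zero, add_zero, cdM_eq_GamE hd hy i,
      ← Matrix.mul_assoc, ← Matrix.add_mul, hDef i]
  have hfac : ∀ y ∈ T, ∃ B : Matrix (Fin m) (Fin m) ℂ, h y = B * Bᴴ ∧ IsUnit B.det := by
    intro y hy
    obtain ⟨B, hB1⟩ := Pool.Agent.Helper93.GS.psd_fac (hp y hy).posSemidef
    refine ⟨Bᴴ, by rw [Matrix.conjTranspose_conjTranspose, hB1], ?_⟩
    have h1 := hd y hy
    rw [hB1, Matrix.det_mul] at h1
    exact isUnit_iff_ne_zero.2 (left_ne_zero_of_mul h1)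
  obtain ⟨hd1, hd2, hd3, -, -⟩ := hD T R H hK
  -- torsion
  have hE : ∀ y ∈ T, ∀ B : Matrix (Fin m) (Fin m) ℂ, h y = B * Bᴴ →
      ∀ S : Matrix (Fin n) (Fin n) ℂ, (H y)⁻¹ = Sᴴ * S →
      2 * Pool.Agent.Helper15.RK.E2 H (gS φ h) y = (H y).det *
        ((∑ a, ∑ c, ∑ d, ‖(S * (Matrix.of fun i k => (D i y * B) k a - (D k y * B) i a) * Sᵀ)
          c d‖ ^ 2 : ℝ) : ℂ) := by
    intro y hy B hBB S hSS
    have e1 := core' ((H y)⁻¹) fun i => D i y * B
    have e2 := quad S fun a => Matrix.of fun i k => (D i y * B) k a - (D k y * B) i a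
    rw [← e2, ← hSS]
    simp only [Matrix.of_apply]
    rw [e1, Pool.Agent.Helper15.RK.E2, ← mul_assoc, ← mul_assoc, mul_comm (2 : ℂ)]
    congr 1
    refine Finset.sum_congr rfl fun j _ => Finset.sum_congr rfl fun i _ =>
      Finset.sum_congr rfl fun l _ => Finset.sum_congr rfl fun k _ => ?_
    rw [hX y hy i j k l, hBB, Matrix.conjTranspose_mul]
    simp only [Matrix.mul_assoc]
  have hre : ∀ y ∈ T, ∀ B : Matrix (Fin m) (Fin m) ℂ, h y = B * Bᴴ →
      ∀ S : Matrix (Fin n) (Fin n) ℂ, (H y)⁻¹ = Sᴴ * S →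
      2 * (Pool.Agent.Helper15.RK.E2 H (gS φ h) y).re = (H y).det.re *
        (∑ a, ∑ c, ∑ d, ‖(S * (Matrix.of fun i k => (D i y * B) k a - (D k y * B) i a) * Sᵀ)
          c d‖ ^ 2 : ℝ) := by
    intro y hy B hBB S hSS
    have e1 := congrArg Complex.re (hE y hy B hBB S hSS)
    rw [Complex.mul_re, Complex.mul_re, (hd1 y hy).1, zero_mul, sub_zero, Complex.im_ofNat,
      zero_mul, sub_zero, Complex.re_ofNat, Complex.ofReal_re] at e1
    exact e1
  have hSf : ∀ y ∈ T, ∃ S : Matrix (Fin n) (Fin n) ℂ, (H y)⁻¹ = Sᴴ * S ∧ IsUnit S.det := by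
    intro y hy
    have h0 : ((H y)⁻¹).PosDef := (hK.posDef y hy).inv
    obtain ⟨S, hS1⟩ := Pool.Agent.Helper93.GS.psd_fac h0.posSemidef
    refine ⟨S, hS1, ?_⟩
    have h1 := Pool.Agent.Helper80.HS.posDef_det_ne h0
    rw [hS1, Matrix.det_mul] at h1
    exact isUnit_iff_ne_zero.2 (right_ne_zero_of_mul h1)
  have hpos : ∀ y ∈ T, 0 ≤ (Pool.Agent.Helper15.RK.E2 H (gS φ h) y).re := by
    intro y hy
    obtain ⟨B, hBB, -⟩ := hfac y hy
    obtain ⟨S, hSS, -⟩ := hSf y hy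
    have e1 := hre y hy B hBB S hSS
    have e2 : 0 ≤ ∑ a, ∑ c, ∑ d,
        ‖(S * (Matrix.of fun i k => (D i y * B) k a - (D k y * B) i a) * Sᵀ) c d‖ ^ 2 :=
      Finset.sum_nonneg fun a _ => Finset.sum_nonneg fun c _ => Finset.sum_nonneg fun d _ =>
        sq_nonneg _
    have e3 := mul_nonneg (hd1 y hy).2.1.le e2
    linarith
  obtain ⟨κ, hκ⟩ := hPUE T R hK.et
  have hst := hST (g := gS φ h) hK hβh hβs hinv κ hκ
  have hcont : ContinuousOn (fun y => (Pool.Agent.Helper15.RK.E2 H (gS φ h) y).re) T := by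
    have c1 : ContinuousOn (fun y => (H y).det) T := by
      have c0 : ContinuousOn (fun y => (((H y).det.re : ℝ) : ℂ)) T :=
        Complex.continuous_ofReal.comp_continuousOn hd2.continuousOn
      refine c0.congr fun y hy => ?_
      apply Complex.ext
      · simp
      · simp [(hd1 y hy).1]
    have c2 : ∀ i j a b, ContinuousOn (cd i (cdb j fun z => (gS φ h z) a b)) T := by
      intro i j a b
      exact (Sm.cdR hWIRT hTo (Sm.cdbR hWIRT hTo hβs j) i a b).continuousOn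
    refine Complex.continuous_re.comp_continuousOn (c1.mul ?_)
    refine continuousOn_finsetSum _ fun j _ => continuousOn_finsetSum _ fun i _ =>
      continuousOn_finsetSum _ fun l _ => continuousOn_finsetSum _ fun k _ => ?_
    exact (((hd3 j i).continuousOn.mul (hd3 l k).continuousOn).sub
      ((hd3 l i).continuousOn.mul (hd3 j k).continuousOn)).mul (c2 i j k l)
  have hzero := hPK hK.et κ hκ _ ⟨hcont, hst.2, hst.1⟩ hpos
  refine ⟨hβs, hβh, ?_⟩
  intro y hy i j l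
  obtain ⟨B, hBB, hBu⟩ := hfac y hy
  obtain ⟨S, hSS, hSu⟩ := hSf y hy
  have e1 := hre y hy B hBB S hSS
  rw [hzero y hy, mul_zero] at e1
  have e2 : ∑ a, ∑ c, ∑ d,
      ‖(S * (Matrix.of fun i k => (D i y * B) k a - (D k y * B) i a) * Sᵀ) c d‖ ^ 2 = 0 := by
    rcases mul_eq_zero.1 e1.symm with h0 | h0
    · exact absurd h0 (hd1 y hy).2.1.ne'
    · exact h0
  have e3 : ∀ a, (Matrix.of fun i k => (D i y * B) k a - (D k y * B) i a :
      Matrix (Fin n) (Fin n) ℂ) = 0 := by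
    intro a
    have e4 := (Finset.sum_eq_zero_iff_of_nonneg (fun a _ => Finset.sum_nonneg fun c _ =>
      Finset.sum_nonneg fun d _ => sq_nonneg _)).1 e2 a (Finset.mem_univ a)
    have e5 : S * (Matrix.of fun i k => (D i y * B) k a - (D k y * B) i a) * Sᵀ = 0 := by
      ext c d
      have e6 := (Finset.sum_eq_zero_iff_of_nonneg (fun c _ =>
        Finset.sum_nonneg fun d _ => sq_nonneg _)).1 e4 c (Finset.mem_univ c)
      have e7 := (Finset.sum_eq_zero_iff_of_nonneg (fun d _ => sq_nonneg _)).1 e6 d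
        (Finset.mem_univ d)
      rw [Matrix.zero_apply]
      exact norm_eq_zero.1 (pow_eq_zero_iff (two_ne_zero)|>.1 e7)
    have e8 : S⁻¹ * (S * (Matrix.of fun i k => (D i y * B) k a - (D k y * B) i a) * Sᵀ) *
        (Sᵀ)⁻¹ = 0 := by rw [e5, Matrix.mul_zero, Matrix.zero_mul]
    have hSt : IsUnit (Sᵀ).det := by rw [Matrix.det_transpose]; exact hSu
    rw [Matrix.mul_assoc S, ← Matrix.mul_assoc S⁻¹, Matrix.nonsing_inv_mul _ hSu, Matrix.one_mul,
      Matrix.mul_assoc, Matrix.mul_nonsing_inv _ hSt, Matrix.mul_one] at e8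
    exact e8
  have e4 : ∀ i k a, (D i y * B) k a = (D k y * B) i a := by
    intro i k a
    have := congrFun (congrFun (e3 a) i) k
    exact sub_eq_zero.1 this
  have e5 : ∀ i k b, (D i y * h y) k b = (D k y * h y) i b := by
    intro i k b
    rw [hBB, ← Matrix.mul_assoc, ← Matrix.mul_assoc, Matrix.mul_apply, Matrix.mul_apply]
    exact Finset.sum_congr rfl fun a _ => by rw [e4 i k a]
  have f3 : cd l (fun y => (gS φ h y) i j) y = (cdR l (gS φ h) y) i j := rfl
  have f4 : cd i (fun y => (gS φ h y) l j) y = (cdR i (gS φ h) y) l j := rfl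
  rw [f3, f4, hB y hy l, hB y hy i, Matrix.mul_apply, Matrix.mul_apply]
  refine Finset.sum_congr rfl fun q _ => ?_
  rw [e5 l i q]

/-- The main theorem of this file. -/
theorem hclo (hWIRT : S_WIRT) (hPUE : S_PUE.{u}) (hD : S_DETI.{u})
    (hST : Pool.Agent.Helper15.RK.S_ST2A.{u}) (hPK : Pool.Agent.Helper15.RK.S_POSK.{u}) :
    S_HCLO.{u} := by
  intro n m T G _ R H hK σ h hS P hPhol hPh hinv hflat
  refine closed_gen hWIRT hPUE hD hST hPK T R H hK (fun x => σ x * P x) h hS.posDef hS.smooth ?_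
    hinv ?_
  · intro a b
    simp only [Matrix.mul_apply]
    exact DifferentiableOn.fun_sum fun c _ => (hS.holo a c).mul (hPhol c b)
  · intro x hx k l
    rw [Matrix.mul_assoc, hflat x hx k l, Matrix.mul_zero]

end Pool.Agent.Helper15.HB
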