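import Pool.Agent.Helper15.HB.RCAL
import Pool.Agent.Helper93.GS.GCLO

/-! # HB: flatness of the image of the projector -/

open Complex Metric Set Filter Topology MeasureTheory
open scoped ContDiff ComplexConjugate ComplexOrder Manifold Matrix

namespace Pool.Agent.Helper15.HB

open Pool.Agent.Helper95.Lin Pool.Agent.Helper16.Abund Pool.Agent.Helper92.Orb
  Pool.Agent.Helper10.SP Pool.Agent.Helper95.RK Pool.Agent.Helper57.HS
  Pool.Agent.Helper15.HS Pool.Agent.Helper15.GS Pool.Agent.Helper57.RBC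
open Pool.Agent.Helper82.HB

variable {n m : ℕ}

/-- `tr (M N) ≥ 0` for positive semidefinite `M`, `N`. -/
theorem tr_psd_mul {M N : Matrix (Fin m) (Fin m) ℂ} (hM : M.PosSemidef) (hN : N.PosSemidef) :
    0 ≤ (Matrix.trace (M * N)).re := by
  obtain ⟨B, hB⟩ := Pool.Agent.Helper93.GS.psd_fac hN
  rw [hB, ← Matrix.mul_assoc, Matrix.trace_mul_comm, ← Matrix.mul_assoc]
  have h1 : (B * M * Bᴴ).PosSemidef := hM.mul_mul_conjTranspose_same B
  exact (Complex.nonneg_iff.1 h1.trace_nonneg).1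

/-- `M ≥ 0`, `N > 0`, `tr (M N) = 0` imply `M = 0`. -/
theorem eq_zero_of_tr {M N : Matrix (Fin m) (Fin m) ℂ} (hM : M.PosSemidef) (hN : N.PosDef)
    (h0 : (Matrix.trace (M * N)).re = 0) : M = 0 := by
  obtain ⟨B, hB⟩ := Pool.Agent.Helper93.GS.psd_fac hN.posSemidef
  have hdet : IsUnit B.det := by
    have h1 := Pool.Agent.Helper80.HS.posDef_det_ne hN
    rw [hB, Matrix.det_mul] at h1
    exact isUnit_iff_ne_zero.2 (right_ne_zero_of_mul h1)
  have h1 : (B * M * Bᴴ).PosSemidef := hM.mul_mul_conjTranspose_same B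
  have h2 : Matrix.trace (M * N) = Matrix.trace (B * M * Bᴴ) := by
    rw [hB, ← Matrix.mul_assoc, Matrix.trace_mul_comm, ← Matrix.mul_assoc]
  have h3 : Matrix.trace (B * M * Bᴴ) = 0 := by
    have h4 := Complex.nonneg_iff.1 h1.trace_nonneg
    apply Complex.ext
    · rw [← h2, h0, Complex.zero_re]
    · rw [← h4.2, Complex.zero_im]
  have h5 : B * M * Bᴴ = 0 := h1.trace_eq_zero_iff.1 h3
  have hdet' : IsUnit (Bᴴ).det := by
    rw [Matrix.det_conjTranspose]; exact hdet.star
  calc M = B⁻¹ * (B * M * Bᴴ) * (Bᴴ)⁻¹ := by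
        rw [Matrix.mul_assoc B, ← Matrix.mul_assoc B⁻¹, Matrix.nonsing_inv_mul _ hdet,
          Matrix.one_mul, Matrix.mul_assoc, Matrix.mul_nonsing_inv _ hdet', Matrix.mul_one]
    _ = 0 := by rw [h5, Matrix.mul_zero, Matrix.zero_mul]

/-- The parallel projector commutes with the curvature. -/
theorem comm_RE (hWIRT : S_WIRT) {T : Set (Cn n)} (hT : IsOpen T)
    {h P : Cn n → Matrix (Fin m) (Fin m) ℂ} (hp : ∀ x ∈ T, (h x).PosDef) (hs : Sm h T)
    (hP : ∀ a b, DifferentiableOn ℂ (fun x => P x a b) T)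
    (hPh : ∀ x ∈ T, P x * h x = h x * (P x)ᴴ) :
    ∀ x ∈ T, (∀ k, cdR k P x = GamE h k x * P x - P x * GamE h k x) ∧
      ∀ k l, P x * RE h k l x = RE h k l x * P x := by
  have hd : ∀ x ∈ T, (h x).det ≠ 0 := fun y hy => Pool.Agent.Helper80.HS.posDef_det_ne (hp y hy)
  have hPs : Sm P T := sm_of_holo hT hP
  have hG : ∀ k, Sm (GamE h k) T := fun k => sm_GamE hWIRT hT hs hd k
  have key : ∀ x ∈ T, ∀ k, cdR k P x = GamE h k x * P x - P x * GamE h k x := by
    intro x hx k
    have e1 : cdR k (fun y => P y * h y) x = cdR k (fun y => h y * (P y)ᴴ) x :=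
      (cdR_congr hT hx hPh k).1
    rw [cdR_mul hWIRT hT hx hPs hs k, cdR_mul hWIRT hT hx hs hPs.conjT k,
      (cdR_conjT hWIRT hT hx hPs k).1, cdbR_holo hWIRT hT hP hx k, Matrix.conjTranspose_zero,
      Matrix.mul_zero, add_zero, cdM_eq_GamE hd hx k, Matrix.mul_assoc (GamE h k x),
      ← hPh x hx, ← Matrix.mul_assoc, ← Matrix.mul_assoc, ← Matrix.add_mul] at e1
    have hu : IsUnit (h x).det := isUnit_iff_ne_zero.2 (hd x hx)
    have e2 := congrArg (fun Z => Z * (h x)⁻¹) e1
    simp only [Matrix.mul_assoc, Matrix.mul_nonsing_inv _ hu, Matrix.mul_one] at e2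
    exact eq_sub_of_add_eq e2
  intro x hx
  refine ⟨key x hx, fun k l => ?_⟩
  have e1 : cdbR l (cdR k P) x = cdbR l (fun y => GamE h k y * P y - P y * GamE h k y) x :=
    (cdR_congr hT hx (fun y hy => key y hy k) l).2
  have e2 : cdbR l (fun y => GamE h k y * P y - P y * GamE h k y) x =
      cdbR l (fun y => GamE h k y * P y) x - cdbR l (fun y => P y * GamE h k y) x := by
    have e3 : cdbR l (fun y => (GamE h k y * P y - P y * GamE h k y) + P y * GamE h k y) x =
        cdbR l (fun y => GamE h k y * P y - P y * GamE h k y) x +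
          cdbR l (fun y => P y * GamE h k y) x :=
      cdbR_add hWIRT hT hx (((hG k).mul hPs).sub (hPs.mul (hG k))) (hPs.mul (hG k)) l
    have e4 : cdbR l (fun y => (GamE h k y * P y - P y * GamE h k y) + P y * GamE h k y) x =
        cdbR l (fun y => GamE h k y * P y) x :=
      (cdR_congr hT hx (fun y _ => sub_add_cancel _ _) l).2
    rw [← e3.symm.trans e4]
    rw [add_sub_cancel_right]
  rw [← (cdR_cdbR hWIRT hT hx hPs k l).1,
    (cdR_congr hT hx (X := cdbR l P) (Y := fun _ => 0) (fun y hy =>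
      cdbR_holo hWIRT hT hP hy l) k).1, (cdR_zero k x).1, e2,
    cdbR_mul hWIRT hT hx (hG k) hPs l, cdbR_mul hWIRT hT hx hPs (hG k) l,
    cdbR_holo hWIRT hT hP hx l, Matrix.mul_zero, Matrix.zero_mul, add_zero, zero_add] at e1
  exact (sub_eq_zero.1 e1.symm).symm

/-- HFL. Flatness. -/
def S_HFL : Prop := ∀ {n m : ℕ} (T : Set (Cn n)), IsOpen T →
  ∀ h P : Cn n → Matrix (Fin m) (Fin m) ℂ, (∀ x ∈ T, (h x).PosDef) →
  (∀ a b, ContDiffOn ℝ ∞ (fun x => h x a b) T) →
  (∀ a b, DifferentiableOn ℂ (fun x => P x a b) T) → (∀ x ∈ T, P x * P x = P x) →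
  (∀ x ∈ T, P x * h x = h x * (P x)ᴴ) → ∀ x ∈ T, ∀ (X : Matrix (Fin m) (Fin m) ℂ) (c : ℝ),
  P x * X = X → X * P x = X → 0 < c → (X * h x - (c : ℂ) • (P x * h x)).PosSemidef →
  (∀ k l, Matrix.trace (RE h k l x * X) = 0) →
  (∀ (u : Cn n) (e : Fin m → ℂ), 0 ≤ (star e ⬝ᵥ ((P x * (∑ k, ∑ l, (u k * conj (u l)) •
    (RE h k l x * h x)) * (P x)ᴴ) *ᵥ e)).re) →
  ∀ k l, P x * RE h k l x = 0

theorem polar {V : Type*} [AddCommGroup V] [Module ℂ V] (M : Fin n → Fin n → V)
    (hM : ∀ u : Cn n, ∑ k, ∑ l, (u k * conj (u l)) • M k l = 0) (k l : Fin n) : M k l = 0 := by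
  classical
  have hk : ∀ k, M k k = 0 := by
    intro k
    have := hM (Pi.single k 1)
    rw [Finset.sum_eq_single k, Finset.sum_eq_single k] at this
    · simpa using this
    · intro j _ hj
      simp [Pi.single_apply, hj]
    · simp
    · intro j _ hj
      refine Finset.sum_eq_zero fun i _ => ?_
      simp [Pi.single_apply, hj]
    · simp
  rcases eq_or_ne k l with rfl | hkl
  · exact hk k
  have h2 : ∀ a : ℂ, conj a • M k l + a • M l k = 0 := by
    intro a
    have := hM (Pi.single k 1 + a • Pi.single l 1)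
    have e : ∀ i j, (((Pi.single k 1 + a • Pi.single l 1 : Cn n) i) *
        conj ((Pi.single k 1 + a • Pi.single l 1 : Cn n) j)) • M i j =
        ((if i = k then 1 else 0) * (if j = k then 1 else 0) : ℂ) • M i j +
        ((if i = k then 1 else 0) * (if j = l then conj a else 0) : ℂ) • M i j +
        ((if i = l then a else 0) * (if j = k then 1 else 0) : ℂ) • M i j +
        ((if i = l then a else 0) * (if j = l then conj a else 0) : ℂ) • M i j := by
      intro i j
      rw [← add_smul, ← add_smul, ← add_smul]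
      congr 1
      simp only [Pi.add_apply, Pi.smul_apply, Pi.single_apply, smul_eq_mul, mul_ite, mul_one,
        mul_zero, map_add]
      rcases eq_or_ne i k with h1 | h1 <;> rcases eq_or_ne i l with h2 | h2 <;>
        rcases eq_or_ne j k with h3 | h3 <;> rcases eq_or_ne j l with h4 | h4 <;>
        simp [h1, h2, h3, h4, hkl, hkl.symm]
    simp only [e, Finset.sum_add_distrib] at this
    simp only [ite_mul, one_mul, zero_mul, mul_ite, mul_one, mul_zero, ite_smul, one_smul,
      zero_smul, Finset.sum_ite_eq', Finset.sum_ite_irrel, Finset.sum_const_zero,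
      Finset.mem_univ, if_true] at this
    simpa [hk k, hk l] using this
  have h3 := h2 1
  have h4 := h2 Complex.I
  rw [map_one, one_smul, one_smul] at h3
  rw [Complex.conj_I] at h4
  have h5 : M l k = - M k l := eq_neg_of_add_eq_zero_right h3
  rw [h5, smul_neg, neg_smul, ← neg_add, neg_eq_zero, ← two_smul ℂ, smul_smul] at h4
  exact (smul_eq_zero.1 h4).resolve_left (by simp)

theorem hfl (hWIRT : S_WIRT) : S_HFL := by
  intro n m T hT h P hp hs hP hPP hPh x hx X c hPX hXP hc hcX htr hnn k l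
  have hcomm := (comm_RE hWIRT hT hp hs hP hPh x hx).2
  have hE := ((ecal hWIRT T hT h hp hs).2.2 x hx).2.2
  have hu : IsUnit (h x).det := isUnit_iff_ne_zero.2 (Pool.Agent.Helper80.HS.posDef_det_ne (hp x hx))
  have key : ∀ u : Cn n, P x * (∑ k, ∑ l, (u k * conj (u l)) • (RE h k l x * h x)) * (P x)ᴴ = 0 := by
    intro u
    set A := ∑ k, ∑ l, (u k * conj (u l)) • (RE h k l x * h x) with hA
    have hAh : Aᴴ = A := by
      rw [hA, Matrix.conjTranspose_sum]
      rw [Finset.sum_congr rfl (fun k _ => Matrix.conjTranspose_sum _ _), Finset.sum_comm]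
      refine Finset.sum_congr rfl fun k _ => Finset.sum_congr rfl fun l _ => ?_
      rw [Matrix.conjTranspose_smul, (hE l k).2]
      congr 1
      rw [Complex.star_def, map_mul, Complex.conj_conj, mul_comm]
    have hMpsd : (P x * A * (P x)ᴴ).PosSemidef := by
      refine Matrix.PosSemidef.of_dotProduct_mulVec_nonneg ?_ ?_
      · rw [Matrix.IsHermitian, Matrix.conjTranspose_mul, Matrix.conjTranspose_mul,
          Matrix.conjTranspose_conjTranspose, hAh, Matrix.mul_assoc]
      · intro e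
        have h1 : (P x * A * (P x)ᴴ).IsHermitian := by
          rw [Matrix.IsHermitian, Matrix.conjTranspose_mul, Matrix.conjTranspose_mul,
            Matrix.conjTranspose_conjTranspose, hAh, Matrix.mul_assoc]
        rw [Complex.nonneg_iff]
        refine ⟨hnn u e, ?_⟩
        have h2 := h1.im_star_dotProduct_mulVec_self e
        exact h2.symm
    have hAX : Matrix.trace (A * (h x)⁻¹ * X) = 0 := by
      have e1 : A * (h x)⁻¹ * X = ∑ k, ∑ l, (u k * conj (u l)) • (RE h k l x * X) := by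
        rw [hA, Finset.sum_mul, Finset.sum_mul]
        refine Finset.sum_congr rfl fun k _ => ?_
        rw [Finset.sum_mul, Finset.sum_mul]
        refine Finset.sum_congr rfl fun l _ => ?_
        rw [Matrix.smul_mul, Matrix.smul_mul, Matrix.mul_assoc (RE h k l x),
          Matrix.mul_nonsing_inv _ hu, Matrix.mul_one]
      rw [e1, Matrix.trace_sum]
      refine Finset.sum_eq_zero fun k _ => ?_
      rw [Matrix.trace_sum]
      refine Finset.sum_eq_zero fun l _ => ?_
      rw [Matrix.trace_smul, htr k l, smul_zero]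
    -- `h⁻¹ X = Pᴴ h⁻¹ X P`
    have e0 : (h x)⁻¹ * P x = (P x)ᴴ * (h x)⁻¹ := by
      calc (h x)⁻¹ * P x = (h x)⁻¹ * (P x * h x) * (h x)⁻¹ := by
            rw [Matrix.mul_assoc, Matrix.mul_assoc, Matrix.mul_nonsing_inv _ hu, Matrix.mul_one]
        _ = (P x)ᴴ * (h x)⁻¹ := by
            rw [hPh x hx, ← Matrix.mul_assoc, Matrix.nonsing_inv_mul _ hu, Matrix.one_mul]
    have e1 : Matrix.trace (P x * A * (P x)ᴴ * ((h x)⁻¹ * X)) = 0 := by
      rw [← hAX]
      rw [show P x * A * (P x)ᴴ * ((h x)⁻¹ * X) = P x * (A * ((P x)ᴴ * (h x)⁻¹) * X) by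
        simp only [Matrix.mul_assoc], ← e0, Matrix.trace_mul_comm]
      rw [show A * ((h x)⁻¹ * P x) * X * P x = A * (h x)⁻¹ * (P x * X * P x) by
        simp only [Matrix.mul_assoc], hPX, hXP]
    have e2 : Matrix.trace (P x * A * (P x)ᴴ * ((h x)⁻¹ * P x)) =
        Matrix.trace (P x * A * (P x)ᴴ * (h x)⁻¹) := by
      rw [show P x * A * (P x)ᴴ * ((h x)⁻¹ * P x) = (P x * A * (P x)ᴴ * (h x)⁻¹) * P x by
        simp only [Matrix.mul_assoc], Matrix.trace_mul_comm,
        show P x * (P x * A * (P x)ᴴ * (h x)⁻¹) = (P x * P x) * A * (P x)ᴴ * (h x)⁻¹ by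
        simp only [Matrix.mul_assoc], hPP x hx]
    have hN : ((h x)⁻¹ * X - (c : ℂ) • ((h x)⁻¹ * P x)).PosSemidef := by
      have h1 := hcX.mul_mul_conjTranspose_same (h x)⁻¹
      have h2 : ((h x)⁻¹)ᴴ = (h x)⁻¹ := by
        rw [Matrix.conjTranspose_nonsing_inv, (hp x hx).1.eq]
      rw [h2, Matrix.mul_sub, Matrix.sub_mul, Matrix.mul_smul, Matrix.smul_mul] at h1
      simp only [Matrix.mul_assoc, Matrix.mul_nonsing_inv _ hu, Matrix.mul_one] at h1
      exact h1
    have e3 := tr_psd_mul hMpsd hN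
    rw [Matrix.mul_sub, Matrix.trace_sub, Matrix.mul_smul, Matrix.trace_smul, e1, e2, zero_sub,
      smul_eq_mul, Complex.neg_re, Complex.re_ofReal_mul] at e3
    have e4 := tr_psd_mul hMpsd (hp x hx).inv.posSemidef
    have e5 : (Matrix.trace (P x * A * (P x)ᴴ * (h x)⁻¹)).re = 0 := by
      nlinarith
    exact eq_zero_of_tr hMpsd (hp x hx).inv e5
  refine polar (fun k l => P x * RE h k l x) (fun u => ?_) k l
  have h1 := key u
  have h2 : P x * (∑ k, ∑ l, (u k * conj (u l)) • (RE h k l x * h x)) * (P x)ᴴ =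
      (∑ k, ∑ l, (u k * conj (u l)) • (P x * RE h k l x)) * h x := by
    rw [Finset.mul_sum, Finset.sum_mul, Finset.sum_mul]
    refine Finset.sum_congr rfl fun k _ => ?_
    rw [Finset.mul_sum, Finset.sum_mul, Finset.sum_mul]
    refine Finset.sum_congr rfl fun l _ => ?_
    rw [Matrix.mul_smul, Matrix.smul_mul, Matrix.smul_mul]
    congr 1
    rw [← Matrix.mul_assoc, Matrix.mul_assoc _ (h x), ← hPh x hx, ← Matrix.mul_assoc,
      Matrix.mul_assoc (P x), ← hcomm k l, ← Matrix.mul_assoc, hPP x hx]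
  rw [h2] at h1
  have h3 := congrArg (fun Z => Z * (h x)⁻¹) h1
  simp only [Matrix.mul_assoc, Matrix.mul_nonsing_inv _ hu, Matrix.mul_one, Matrix.zero_mul] at h3
  exact h3

end Pool.Agent.Helper15.HB
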