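import Pool.Agent.Helper15.HB.Rect
import Pool.Agent.Helper82.HB.GoalsB

/-! # HB: RCAL, ECAL -/

open Complex Metric Set Filter Topology MeasureTheory
open scoped ContDiff ComplexConjugate ComplexOrder Manifold Matrix

namespace Pool.Agent.Helper15.HB

open Pool.Agent.Helper95.Lin Pool.Agent.Helper16.Abund Pool.Agent.Helper92.Orb
  Pool.Agent.Helper10.SP Pool.Agent.Helper95.RK Pool.Agent.Helper57.HS
  Pool.Agent.Helper15.HS Pool.Agent.Helper15.GS Pool.Agent.Helper57.RBC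
open Pool.Agent.Helper82.HB

theorem rcal (hWIRT : S_WIRT) : S_RCAL := by
  intro n p q s W hW A B hA hB
  refine ⟨Sm.mul (X := A) (Y := B) hA hB, Sm.conjT (X := A) hA, fun k i j =>
    ⟨Sm.cdR hWIRT hW (X := A) hA k i j, Sm.cdbR hWIRT hW (X := A) hA k i j⟩, ?_, ?_⟩
  · intro x hx k
    exact ⟨cdR_mul hWIRT hW hx hA hB k, cdbR_mul hWIRT hW hx hA hB k,
      (cdR_conjT hWIRT hW hx (X := A) hA k).1, (cdR_conjT hWIRT hW hx (X := A) hA k).2,
      fun l => (cdR_cdbR hWIRT hW hx (X := A) hA k l).1⟩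
  · intro hol x hx l
    refine ⟨cdbR_holo hWIRT hW hol hx l, fun k => ?_⟩
    rw [← (cdR_cdbR hWIRT hW hx (X := A) hA k l).1,
      (cdR_congr hW hx (X := cdbR l A) (Y := fun _ => 0) (fun y hy =>
        cdbR_holo hWIRT hW hol hy l) k).1]
    exact (cdR_zero k x).1

theorem ecal (hWIRT : S_WIRT) : S_ECAL := by
  intro n m W hW h hp hs
  have hd : ∀ x ∈ W, (h x).det ≠ 0 := fun y hy => Pool.Agent.Helper80.HS.posDef_det_ne (hp y hy)
  have hG : ∀ k, Sm (GamE h k) W := fun k => sm_GamE hWIRT hW hs hd k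
  have key : ∀ x ∈ W, ∀ k l, RE h k l x * h x =
      cdbM l (cdM k h) x - GamE h k x * h x * (GamE h l x)ᴴ := by
    intro x hx k l
    have h1 : cdbR l (cdR k h) x = cdbR l (fun y => GamE h k y * h y) x :=
      (cdR_congr hW hx (fun y hy => cdM_eq_GamE hd hy k) l).2
    rw [cdbR_mul hWIRT hW hx (hG k) hs l, cdbM_eq_GamE hWIRT hW hs hp hx l,
      ← Matrix.mul_assoc] at h1
    exact (sub_eq_of_eq_add h1).symm
  refine ⟨fun k => hG k, fun k l => Sm.cdbR hWIRT hW (hG k) l, fun x hx => ⟨fun k =>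
    cdM_eq_GamE hd hx k, fun l => cdbM_eq_GamE hWIRT hW hs hp hx l, fun k l => ⟨key x hx k l, ?_⟩⟩⟩
  rw [key x hx k l, key x hx l k, Matrix.conjTranspose_sub, Matrix.conjTranspose_mul,
    Matrix.conjTranspose_mul, Matrix.conjTranspose_conjTranspose, (hp x hx).1.eq,
    ← Matrix.mul_assoc]
  congr 1
  have e1 : (cdbM l (cdM k h) x)ᴴ = cdR l (fun y => (cdR k h y)ᴴ) x :=
    (cdR_conjT hWIRT hW hx (Sm.cdR hWIRT hW hs k) l).1.symm
  have e2 : ∀ y ∈ W, (cdR k h y)ᴴ = cdbR k h y := by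
    intro y hy
    rw [← (cdR_conjT hWIRT hW hy hs k).2]
    exact (cdR_congr hW hy (fun z hz => ((hp z hz).1).eq) k).2
  rw [e1, (cdR_congr hW hx e2 l).1, (cdR_cdbR hWIRT hW hx hs l k).1]
  rfl

end Pool.Agent.Helper15.HB
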