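import Pool.Agent.Helper82.HB.Defs
import Pool.Agent.Helper80.HS.MCAL
import Pool.Agent.Helper95.Lin.Basics

/-! # HB: calculus of fields of rectangular matrices -/

open Complex Metric Set Filter Topology MeasureTheory
open scoped ContDiff ComplexConjugate ComplexOrder Manifold Matrix

namespace Pool.Agent.Helper15.HB

open Pool.Agent.Helper95.Lin Pool.Agent.Helper16.Abund Pool.Agent.Helper92.Orb
  Pool.Agent.Helper10.SP Pool.Agent.Helper95.RK Pool.Agent.Helper57.HS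
  Pool.Agent.Helper15.HS Pool.Agent.Helper15.GS Pool.Agent.Helper57.RBC
open Pool.Agent.Helper16.RK (IsDer)
open Pool.Agent.Helper82.HB

variable {n m p q r : ℕ} {W : Set (Cn n)} {x : Cn n}

/-- All entries are smooth. -/
def Sm (X : Cn n → Matrix (Fin p) (Fin q) ℂ) (W : Set (Cn n)) : Prop :=
  ∀ i j, ContDiffOn ℝ ∞ (fun x => X x i j) W

theorem Sm.mul {X : Cn n → Matrix (Fin p) (Fin q) ℂ} {Y : Cn n → Matrix (Fin q) (Fin r) ℂ}
    (hX : Sm X W) (hY : Sm Y W) : Sm (fun y => X y * Y y) W := by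
  intro i j
  simp only [Matrix.mul_apply]
  exact ContDiffOn.sum fun a _ => (hX i a).mul (hY a j)

theorem Sm.add {X Y : Cn n → Matrix (Fin p) (Fin q) ℂ} (hX : Sm X W) (hY : Sm Y W) :
    Sm (fun y => X y + Y y) W := fun i j => (hX i j).add (hY i j)

theorem Sm.sub {X Y : Cn n → Matrix (Fin p) (Fin q) ℂ} (hX : Sm X W) (hY : Sm Y W) :
    Sm (fun y => X y - Y y) W := fun i j => (hX i j).sub (hY i j)

theorem Sm.conjT {X : Cn n → Matrix (Fin p) (Fin q) ℂ} (hX : Sm X W) :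
    Sm (fun y => (X y)ᴴ) W := fun i j => Complex.conjCLE.contDiff.comp_contDiffOn (hX j i)

theorem Sm.cdR (hWIRT : S_WIRT) (hW : IsOpen W) {X : Cn n → Matrix (Fin p) (Fin q) ℂ}
    (hX : Sm X W) (k : Fin n) : Sm (cdR k X) W := fun i j =>
  ((hWIRT W hW _ _ (hX i j) (hX i j)).1 k).1

theorem Sm.cdbR (hWIRT : S_WIRT) (hW : IsOpen W) {X : Cn n → Matrix (Fin p) (Fin q) ℂ}
    (hX : Sm X W) (k : Fin n) : Sm (cdbR k X) W := fun i j =>
  ((hWIRT W hW _ _ (hX i j) (hX i j)).1 k).2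

/-- A holomorphic field is smooth. -/
theorem sm_of_holo (hW : IsOpen W) {X : Cn n → Matrix (Fin p) (Fin q) ℂ}
    (hX : ∀ i j, DifferentiableOn ℂ (fun x => X x i j) W) : Sm X W := fun i j =>
  holo_contDiffOn_real hW (hX i j)

theorem cdbR_holo (hWIRT : S_WIRT) (hW : IsOpen W) {X : Cn n → Matrix (Fin p) (Fin q) ℂ}
    (hX : ∀ i j, DifferentiableOn ℂ (fun x => X x i j) W) (hx : x ∈ W) (k : Fin n) :
    cdbR k X x = 0 := by
  ext i j
  have h1 := sm_of_holo hW hX i j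
  exact (hWIRT W hW _ _ h1 h1).2.2.2.2.2.2 (hX i j) k x hx

theorem isDer_mulR {D : (Cn n → ℂ) → ℂ} (h : IsDer W x D)
    {X : Cn n → Matrix (Fin p) (Fin q) ℂ} {Y : Cn n → Matrix (Fin q) (Fin r) ℂ}
    (hX : Sm X W) (hY : Sm Y W) (i : Fin p) (j : Fin r) :
    D (fun y => (X y * Y y) i j) =
      ∑ a, D (fun y => X y i a) * Y x a j + ∑ a, X x i a * D (fun y => Y y a j) := by
  have e : (fun y => (X y * Y y) i j) = fun y => ∑ a, X y i a * Y y a j := by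
    funext y; rw [Matrix.mul_apply]
  rw [e, h.sum Finset.univ (fun a y => X y i a * Y y a j) (fun a _ => (hX i a).mul (hY a j)),
    ← Finset.sum_add_distrib]
  refine Finset.sum_congr rfl fun a _ => ?_
  rw [h.mul _ _ (hX i a) (hY a j)]
  ring

theorem cdR_mul (hWIRT : S_WIRT) (hW : IsOpen W) (hx : x ∈ W)
    {X : Cn n → Matrix (Fin p) (Fin q) ℂ} {Y : Cn n → Matrix (Fin q) (Fin r) ℂ}
    (hX : Sm X W) (hY : Sm Y W) (k : Fin n) :
    cdR k (fun y => X y * Y y) x = cdR k X x * Y x + X x * cdR k Y x := by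
  ext i j
  have h := isDer_mulR (Pool.Agent.Helper80.HS.isDer_cd hWIRT hW hx k) hX hY i j
  rw [Matrix.add_apply, Matrix.mul_apply, Matrix.mul_apply]
  exact h

theorem cdbR_mul (hWIRT : S_WIRT) (hW : IsOpen W) (hx : x ∈ W)
    {X : Cn n → Matrix (Fin p) (Fin q) ℂ} {Y : Cn n → Matrix (Fin q) (Fin r) ℂ}
    (hX : Sm X W) (hY : Sm Y W) (k : Fin n) :
    cdbR k (fun y => X y * Y y) x = cdbR k X x * Y x + X x * cdbR k Y x := by
  ext i j
  have h := isDer_mulR (Pool.Agent.Helper80.HS.isDer_cdb hWIRT hW hx k) hX hY i j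
  rw [Matrix.add_apply, Matrix.mul_apply, Matrix.mul_apply]
  exact h

theorem cdR_add (hWIRT : S_WIRT) (hW : IsOpen W) (hx : x ∈ W)
    {X Y : Cn n → Matrix (Fin p) (Fin q) ℂ} (hX : Sm X W) (hY : Sm Y W) (k : Fin n) :
    cdR k (fun y => X y + Y y) x = cdR k X x + cdR k Y x := by
  ext i j
  exact ((hWIRT W hW _ _ (hX i j) (hY i j)).2.1 k x hx).1

theorem cdbR_add (hWIRT : S_WIRT) (hW : IsOpen W) (hx : x ∈ W)
    {X Y : Cn n → Matrix (Fin p) (Fin q) ℂ} (hX : Sm X W) (hY : Sm Y W) (k : Fin n) :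
    cdbR k (fun y => X y + Y y) x = cdbR k X x + cdbR k Y x := by
  ext i j
  exact ((hWIRT W hW _ _ (hX i j) (hY i j)).2.1 k x hx).2

theorem cdR_congr (hW : IsOpen W) (hx : x ∈ W) {X Y : Cn n → Matrix (Fin p) (Fin q) ℂ}
    (h : ∀ y ∈ W, X y = Y y) (k : Fin n) : cdR k X x = cdR k Y x ∧ cdbR k X x = cdbR k Y x := by
  constructor
  · ext i j
    exact (Pool.Agent.Helper83.SP.cd_congr hW (f := fun y => X y i j) (g := fun y => Y y i j)
      (fun y hy => by rw [h y hy]) k hx).1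
  · ext i j
    exact (Pool.Agent.Helper83.SP.cd_congr hW (f := fun y => X y i j) (g := fun y => Y y i j)
      (fun y hy => by rw [h y hy]) k hx).2

theorem cdR_conjT (hWIRT : S_WIRT) (hW : IsOpen W) (hx : x ∈ W)
    {X : Cn n → Matrix (Fin p) (Fin q) ℂ} (hX : Sm X W) (k : Fin n) :
    cdR k (fun y => (X y)ᴴ) x = (cdbR k X x)ᴴ ∧ cdbR k (fun y => (X y)ᴴ) x = (cdR k X x)ᴴ := by
  constructor
  · ext i j
    exact ((hWIRT W hW _ _ (hX j i) (hX j i)).2.2.2.1 k x hx).1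
  · ext i j
    exact ((hWIRT W hW _ _ (hX j i) (hX j i)).2.2.2.1 k x hx).2

theorem cdR_cdbR (hWIRT : S_WIRT) (hW : IsOpen W) (hx : x ∈ W)
    {X : Cn n → Matrix (Fin p) (Fin q) ℂ} (hX : Sm X W) (k l : Fin n) :
    cdR k (cdbR l X) x = cdbR l (cdR k X) x ∧ cdR k (cdR l X) x = cdR l (cdR k X) x := by
  constructor
  · ext i j
    exact ((hWIRT W hW _ _ (hX i j) (hX i j)).2.2.2.2.1 k l x hx).2.2
  · ext i j
    exact ((hWIRT W hW _ _ (hX i j) (hX i j)).2.2.2.2.1 k l x hx).1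

theorem cdR_zero (k : Fin n) (x : Cn n) :
    cdR k (fun _ => (0 : Matrix (Fin p) (Fin q) ℂ)) x = 0 ∧
    cdbR k (fun _ => (0 : Matrix (Fin p) (Fin q) ℂ)) x = 0 := by
  constructor
  · ext i j
    exact (Pool.Agent.Helper83.SP.cd_const (0 : ℂ) k x).1
  · ext i j
    exact (Pool.Agent.Helper83.SP.cd_const (0 : ℂ) k x).2

/-! ## The connection of `h` -/

section conn

variable {h : Cn n → Matrix (Fin m) (Fin m) ℂ}

theorem sm_inv (hWIRT : S_WIRT) (hW : IsOpen W) (hs : Sm h W) (hd : ∀ x ∈ W, (h x).det ≠ 0) :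
    Sm (fun y => (h y)⁻¹) W :=
  ((Pool.Agent.Helper80.HS.mcal hWIRT W hW h h hs hs).2.2.2.1 hd).1

theorem sm_GamE (hWIRT : S_WIRT) (hW : IsOpen W) (hs : Sm h W) (hd : ∀ x ∈ W, (h x).det ≠ 0)
    (k : Fin n) : Sm (GamE h k) W :=
  Sm.mul (X := fun y => cdM k h y) (Y := fun y => (h y)⁻¹) (Sm.cdR hWIRT hW hs k)
    (sm_inv hWIRT hW hs hd)

theorem cdM_eq_GamE (hd : ∀ x ∈ W, (h x).det ≠ 0) (hx : x ∈ W) (k : Fin n) :
    cdR k h x = GamE h k x * h x := by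
  have : IsUnit (h x).det := isUnit_iff_ne_zero.2 (hd x hx)
  rw [GamE, Matrix.mul_assoc, Matrix.nonsing_inv_mul _ this, Matrix.mul_one]
  rfl

theorem cdbM_eq_GamE (hWIRT : S_WIRT) (hW : IsOpen W) (hs : Sm h W)
    (hp : ∀ x ∈ W, (h x).PosDef) (hx : x ∈ W) (k : Fin n) :
    cdbR k h x = h x * (GamE h k x)ᴴ := by
  have hd : ∀ x ∈ W, (h x).det ≠ 0 := fun y hy => Pool.Agent.Helper80.HS.posDef_det_ne (hp y hy)
  have h1 : cdbR k h x = cdbR k (fun y => (h y)ᴴ) x :=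
    (cdR_congr hW hx (fun y hy => ((hp y hy).1).eq.symm) k).2
  rw [h1, (cdR_conjT hWIRT hW hx hs k).2, cdM_eq_GamE hd hx k, Matrix.conjTranspose_mul,
    (hp x hx).1.eq]

end conn

end Pool.Agent.Helper15.HB
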